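import Mathlib

set_option autoImplicit false

open MeasureTheory Filter Topology
open scoped ContDiff ENNReal

namespace Pool.Agent.R217.NS

/-- `u ∈ H_0^1(ℝ) = H^1(ℝ)`, with weak derivative `g`: both are square integrable and there are
smooth compactly supported functions converging to `u` in `L²` whose derivatives converge to `g`
in `L²`. -/
def IsH1 (u g : ℝ → ℝ) : Prop :=
  MemLp u 2 volume ∧ MemLp g 2 volume ∧
    ∃ φ : ℕ → ℝ → ℝ, (∀ n, ContDiff ℝ ∞ (φ n) ∧ HasCompactSupport (φ n)) ∧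
      Tendsto (fun n => eLpNorm (φ n - u) 2 volume) atTop (𝓝 0) ∧
      Tendsto (fun n => eLpNorm (deriv (φ n) - g) 2 volume) atTop (𝓝 0)

/-- `∫ (u'^2 + lam u^2)`. -/
noncomputable def nrm2 (lam : ℝ) (u g : ℝ → ℝ) : ℝ := ∫ x, (g x ^ 2 + lam * u x ^ 2)

lemma hasDerivAt_Phi {w : ℝ → ℝ} {w' x : ℝ} (h : HasDerivAt w w' x) (hw : 0 ≤ 1 - w x ^ 2 / 2) :
    HasDerivAt (fun x => -(2/3) * (1 - w x ^ 2 / 2) ^ ((3:ℝ)/2))
      (w x * w' * Real.sqrt (1 - w x ^ 2 / 2)) x := by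
  have h1 : HasDerivAt (fun x => 1 - w x ^ 2 / 2) (-(w x * w')) x := by
    have h3 : HasDerivAt (fun x => w x ^ 2) (2 * w x * w') x := by
      have := h.fun_pow 2
      refine this.congr_deriv ?_
      norm_num
    refine ((h3.div_const 2).const_sub 1).congr_deriv ?_
    ring
  have h2 := (h1.rpow_const (p := (3:ℝ)/2) (Or.inr (by norm_num))).const_mul (-(2/3 : ℝ))
  refine h2.congr_deriv ?_
  rw [Real.sqrt_eq_rpow]
  have : (3:ℝ)/2 - 1 = 1/2 := by norm_num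
  rw [this]
  ring

/-- The pointwise Bogomolny inequality. -/
lemma bogo (w w' : ℝ) (hw : w ^ 2 ≤ 2) :
    |w * w' * Real.sqrt (1 - w ^ 2 / 2)| ≤ 1/2 * w' ^ 2 + 1/2 * w ^ 2 - 1/4 * w ^ 4 := by
  have h0 : 0 ≤ 1 - w ^ 2 / 2 := by linarith
  set r := Real.sqrt (1 - w ^ 2 / 2) with hr
  have hr2 : r ^ 2 = 1 - w ^ 2 / 2 := Real.sq_sqrt h0
  have e : 1/2 * w' ^ 2 + 1/2 * w ^ 2 - 1/4 * w ^ 4 = 1/2 * w' ^ 2 + 1/2 * (w * r) ^ 2 := by
    rw [mul_pow, hr2]; ring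
  rw [e, abs_le]
  constructor
  · nlinarith [sq_nonneg (w' + w * r)]
  · nlinarith [sq_nonneg (w' - w * r)]

lemma half_bound {w : ℝ → ℝ} (hw : ContDiff ℝ 1 w) {a b : ℝ} (hab : a ≤ b)
    (hsup : ∀ x, w x ^ 2 ≤ 2) :
    |(-(2/3) * (1 - w b ^ 2 / 2) ^ ((3:ℝ)/2)) - (-(2/3) * (1 - w a ^ 2 / 2) ^ ((3:ℝ)/2))| ≤
      ∫ x in a..b, (1/2 * deriv w x ^ 2 + 1/2 * w x ^ 2 - 1/4 * w x ^ 4) := by
  have hc : Continuous w := hw.continuous
  have hc' : Continuous (deriv w) := hw.continuous_deriv le_rfl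
  have hcd : Continuous fun x => w x * deriv w x * Real.sqrt (1 - w x ^ 2 / 2) := by fun_prop
  have hftc := intervalIntegral.integral_eq_sub_of_hasDerivAt
    (f := fun x => -(2/3) * (1 - w x ^ 2 / 2) ^ ((3:ℝ)/2))
    (f' := fun x => w x * deriv w x * Real.sqrt (1 - w x ^ 2 / 2)) (a := a) (b := b)
    (fun x _ => hasDerivAt_Phi ((hw.differentiable (by simp)) x).hasDerivAt
      (by have := hsup x; linarith))
    (hcd.intervalIntegrable _ _)
  rw [← hftc]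
  refine (intervalIntegral.abs_integral_le_integral_abs hab).trans ?_
  apply intervalIntegral.integral_mono_on hab
  · exact (hcd.abs).intervalIntegrable _ _
  · apply Continuous.intervalIntegrable
    fun_prop
  · intro x _
    exact bogo _ _ (hsup x)

lemma sharp_norm {w : ℝ → ℝ} (hw : ContDiff ℝ ∞ w) (hs : HasCompactSupport w)
    (hsup : ∀ x, w x ^ 2 ≤ 2) {x₀ : ℝ} (hx₀ : w x₀ ^ 2 = 2) :
    4/3 ≤ ∫ x, (1/2 * deriv w x ^ 2 + 1/2 * w x ^ 2 - 1/4 * w x ^ 4) := by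
  have hw1 : ContDiff ℝ 1 w := hw.of_le (by simp)
  have hc : Continuous w := hw1.continuous
  have hc' : Continuous (deriv w) := hw1.continuous_deriv le_rfl
  obtain ⟨R, hR⟩ := hs.isCompact.isBounded.subset_closedBall (0:ℝ)
  set L : ℝ := |R| + |x₀| + 1 with hL
  have hz : ∀ x, L ≤ |x| → w x = 0 := by
    intro x hx
    by_contra hne
    have : x ∈ Metric.closedBall (0:ℝ) R := hR (subset_tsupport w hne)
    rw [mem_closedBall_zero_iff, Real.norm_eq_abs] at this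
    have h1 := le_abs_self R
    have h2 := abs_nonneg x₀
    linarith
  have hwR : w L = 0 := hz L (le_abs_self L)
  have hwL : w (-L) = 0 := hz (-L) (by rw [abs_neg]; exact le_abs_self L)
  have hx1 : -L ≤ x₀ := by
    have := neg_abs_le x₀
    have := abs_nonneg R
    linarith
  have hx2 : x₀ ≤ L := by
    have := le_abs_self x₀
    have := abs_nonneg R
    linarith
  have hnn : ∀ x, 0 ≤ 1/2 * deriv w x ^ 2 + 1/2 * w x ^ 2 - 1/4 * w x ^ 4 := fun x =>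
    (abs_nonneg _).trans (bogo (w x) (deriv w x) (hsup x))
  have hcont : Continuous fun x => 1/2 * deriv w x ^ 2 + 1/2 * w x ^ 2 - 1/4 * w x ^ 4 := by
    fun_prop
  have hint : Integrable fun x => 1/2 * deriv w x ^ 2 + 1/2 * w x ^ 2 - 1/4 * w x ^ 4 := by
    apply hcont.integrable_of_hasCompactSupport
    have h1 : HasCompactSupport (deriv w) := hs.deriv
    rw [hasCompactSupport_def] at *
    apply IsCompact.of_isClosed_subset (hs.union h1) isClosed_closure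
    rw [← closure_union]
    apply closure_mono
    intro x hx
    by_contra hcon
    rw [Set.mem_union, not_or, Function.notMem_support, Function.notMem_support] at hcon
    apply hx
    simp only [hcon.1, hcon.2]
    norm_num
  have hsplit : ∫ x in (-L)..L, (1/2 * deriv w x ^ 2 + 1/2 * w x ^ 2 - 1/4 * w x ^ 4) =
      (∫ x in (-L)..x₀, (1/2 * deriv w x ^ 2 + 1/2 * w x ^ 2 - 1/4 * w x ^ 4)) +
      ∫ x in x₀..L, (1/2 * deriv w x ^ 2 + 1/2 * w x ^ 2 - 1/4 * w x ^ 4) := by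
    rw [intervalIntegral.integral_add_adjacent_intervals] <;>
    exact hcont.intervalIntegrable _ _
  have h1 := half_bound hw1 hx1 hsup
  have h2 := half_bound hw1 hx2 hsup
  rw [hwL, hx₀] at h1
  rw [hwR, hx₀] at h2
  have e : ((1:ℝ) - 2/2) ^ ((3:ℝ)/2) = 0 := by
    rw [show ((1:ℝ) - 2/2) = 0 by norm_num, Real.zero_rpow (by norm_num)]
  rw [e] at h1 h2
  have e1 : |(-(2/3) * (0:ℝ)) - (-(2/3) * ((1:ℝ) - 0 ^ 2 / 2) ^ ((3:ℝ)/2))| = 2/3 := by
    rw [show ((1:ℝ) - 0 ^ 2 / 2) = 1 by norm_num, Real.one_rpow]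
    norm_num [abs_of_pos]
  have e2 : |(-(2/3) * ((1:ℝ) - 0 ^ 2 / 2) ^ ((3:ℝ)/2)) - (-(2/3) * (0:ℝ))| = 2/3 := by
    rw [show ((1:ℝ) - 0 ^ 2 / 2) = 1 by norm_num, Real.one_rpow]
    norm_num [abs_of_pos, abs_of_neg]
  rw [e1] at h1
  rw [e2] at h2
  have h3 : ∫ x in (-L)..L, (1/2 * deriv w x ^ 2 + 1/2 * w x ^ 2 - 1/4 * w x ^ 4) ≤
      ∫ x, (1/2 * deriv w x ^ 2 + 1/2 * w x ^ 2 - 1/4 * w x ^ 4) := by
    rw [intervalIntegral.integral_of_le (by linarith)]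
    exact setIntegral_le_integral hint (Eventually.of_forall hnn)
  linarith

end Pool.Agent.R217.NS
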