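import Pool.Agent.R217.NS.Basic

set_option autoImplicit false

open MeasureTheory Filter Topology
open scoped ContDiff ENNReal

namespace Pool.Agent.R217.NS

lemma int_sq {f : ℝ → ℝ} (hf : MemLp f 2 volume) :
    ∫ x, f x ^ 2 = (eLpNorm f 2 volume).toReal ^ 2 := by
  rw [hf.eLpNorm_eq_integral_rpow_norm (by norm_num) (by norm_num)]
  simp only [ENNReal.toReal_ofNat, Real.rpow_ofNat]
  have hA : 0 ≤ ∫ x, ‖f x‖ ^ 2 := integral_nonneg fun x => by positivity
  rw [ENNReal.toReal_ofReal (by positivity), show ((2:ℝ)⁻¹) = 1 / 2 by norm_num,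
    ← Real.sqrt_eq_rpow, Real.sq_sqrt hA]
  simp

lemma int_four {f : ℝ → ℝ} (hf : MemLp f 4 volume) :
    ∫ x, f x ^ 4 = (eLpNorm f 4 volume).toReal ^ 4 := by
  rw [hf.eLpNorm_eq_integral_rpow_norm (by norm_num) (by norm_num)]
  simp only [ENNReal.toReal_ofNat, Real.rpow_ofNat]
  have hA : 0 ≤ ∫ x, ‖f x‖ ^ 4 := integral_nonneg fun x => by positivity
  rw [ENNReal.toReal_ofReal (by positivity), ← Real.rpow_natCast _ 4, ← Real.rpow_mul hA]
  norm_num
  congr 1
  funext x
  rw [show (4:ℕ) = 2 * 2 by norm_num, pow_mul, pow_mul, sq_abs]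

lemma cc_memLp {w : ℝ → ℝ} (hw : ContDiff ℝ ∞ w) (hs : HasCompactSupport w) (p : ℝ≥0∞) :
    MemLp w p volume ∧ MemLp (deriv w) p volume :=
  ⟨hw.continuous.memLp_of_hasCompactSupport hs,
    (hw.continuous_deriv (by simp)).memLp_of_hasCompactSupport hs.deriv⟩

lemma pow_integrable {w : ℝ → ℝ} (hw : Continuous w) (hs : HasCompactSupport w) {k : ℕ}
    (hk : k ≠ 0) : Integrable fun x => w x ^ k := by
  apply (hw.pow k).integrable_of_hasCompactSupport
  apply hs.mono
  intro x hx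
  rw [Function.mem_support] at hx ⊢
  exact fun h => hx (by simp only [Pi.pow_apply, h, zero_pow hk])

/-- The sharp inequality for test functions. -/
lemma sharp_cc {w : ℝ → ℝ} (hw : ContDiff ℝ ∞ w) (hs : HasCompactSupport w) :
    16 / 3 * ∫ x, w x ^ 4 ≤ ((∫ x, deriv w x ^ 2) + ∫ x, w x ^ 2) ^ 2 := by
  obtain ⟨x₀, hx₀⟩ := (hw.continuous.norm).exists_forall_ge_of_hasCompactSupport hs.norm
  rcases eq_or_ne (w x₀) 0 with h0 | h0
  · have hz : ∀ x, w x = 0 := by
      intro x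
      have := hx₀ x
      rw [h0, norm_zero] at this
      exact norm_le_zero_iff.1 this
    simp only [hz]
    norm_num
    positivity
  · set k : ℝ := Real.sqrt 2 / w x₀ with hk
    have hk2 : k ^ 2 = 2 / w x₀ ^ 2 := by
      rw [hk, div_pow, Real.sq_sqrt (by norm_num)]
    have hκ : 0 < k ^ 2 := by rw [hk2]; positivity
    have hv : ContDiff ℝ ∞ (fun x => k * w x) := contDiff_const.mul hw
    have hvs : HasCompactSupport (fun x => k * w x) := hs.mul_left
    have hsup : ∀ x, (k * w x) ^ 2 ≤ 2 := by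
      intro x
      have h1 : w x ^ 2 ≤ w x₀ ^ 2 := by
        have := hx₀ x
        rw [Real.norm_eq_abs, Real.norm_eq_abs] at this
        exact sq_le_sq.2 this
      rw [mul_pow, hk2, div_mul_eq_mul_div, div_le_iff₀ (by positivity)]
      linarith
    have h2 : (k * w x₀) ^ 2 = 2 := by
      rw [mul_pow, hk2]; field_simp
    have h := sharp_norm hv hvs hsup h2
    have hd : ∀ x, deriv (fun x => k * w x) x = k * deriv w x := by
      intro x
      rw [deriv_const_mul]
      exact (hw.differentiable (by simp)) x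
    simp_rw [hd, mul_pow] at h
    have iA : Integrable fun x => deriv w x ^ 2 :=
      pow_integrable (hw.continuous_deriv (by simp)) hs.deriv two_ne_zero
    have iB : Integrable fun x => w x ^ 2 := pow_integrable hw.continuous hs two_ne_zero
    have iD : Integrable fun x => w x ^ 4 := pow_integrable hw.continuous hs four_ne_zero
    have e : ∫ x, (1/2 * (k ^ 2 * deriv w x ^ 2) + 1/2 * (k ^ 2 * w x ^ 2) -
        1/4 * (k ^ 4 * w x ^ 4)) = 1/2 * (k ^ 2 * ∫ x, deriv w x ^ 2) +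
          1/2 * (k ^ 2 * ∫ x, w x ^ 2) - 1/4 * (k ^ 4 * ∫ x, w x ^ 4) := by
      have j1 := (iA.const_mul (k ^ 2)).const_mul (1/2)
      have j2 := (iB.const_mul (k ^ 2)).const_mul (1/2)
      have j3 := (iD.const_mul (k ^ 4)).const_mul (1/4)
      have j12 : Integrable (fun x => 1/2 * (k ^ 2 * deriv w x ^ 2) + 1/2 * (k ^ 2 * w x ^ 2)) :=
        j1.add j2
      rw [integral_sub j12 j3, integral_add j1 j2]
      simp only [integral_const_mul]
    rw [e] at h
    set A := ∫ x, deriv w x ^ 2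
    set B := ∫ x, w x ^ 2
    set D := ∫ x, w x ^ 4
    have hA : 0 ≤ A := integral_nonneg fun x => by positivity
    have hB : 0 ≤ B := integral_nonneg fun x => by positivity
    have hD : 0 ≤ D := integral_nonneg fun x => by positivity
    have h4 : k ^ 4 = (k ^ 2) ^ 2 := by ring
    rw [h4] at h
    set κ := k ^ 2
    have h5 : 8/3 + κ ^ 2 * D / 2 ≤ κ * (A + B) := by linarith
    have h6 : (8/3 + κ ^ 2 * D / 2) ^ 2 ≤ (κ * (A + B)) ^ 2 :=
      pow_le_pow_left₀ (by positivity) h5 2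
    have h7 : 16/3 * (κ ^ 2 * D) ≤ (8/3 + κ ^ 2 * D / 2) ^ 2 := by
      nlinarith [sq_nonneg (8/3 - κ ^ 2 * D / 2)]
    have h8 : κ ^ 2 * (16/3 * D) ≤ κ ^ 2 * (A + B) ^ 2 := by
      calc κ ^ 2 * (16/3 * D) = 16/3 * (κ ^ 2 * D) := by ring
        _ ≤ _ := h7.trans h6
        _ = _ := by ring
    exact le_of_mul_le_mul_left h8 (by positivity)

/-- The sharp inequality in `H^1(ℝ)`. -/
lemma sharp_H1 {u g : ℝ → ℝ} (h : IsH1 u g) :
    MemLp u 4 volume ∧ 16 / 3 * ∫ x, u x ^ 4 ≤ ((∫ x, g x ^ 2) + ∫ x, u x ^ 2) ^ 2 := by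
  obtain ⟨hu, hg, φ, hφ, h1, h2⟩ := h
  have hT : TendstoInMeasure volume φ atTop u := by
    apply tendstoInMeasure_of_tendsto_eLpNorm (p := 2) (by norm_num)
    · intro n; exact (cc_memLp (hφ n).1 (hφ n).2 2).1.1
    · exact hu.1
    · exact h1
  obtain ⟨ns, hns, hae⟩ := hT.exists_seq_tendsto_ae
  have hfat : eLpNorm u 4 volume ≤ liminf (fun k => eLpNorm (φ (ns k)) 4 volume) atTop := by
    apply Lp.eLpNorm_lim_le_liminf_eLpNorm
    · intro k
      exact (cc_memLp (hφ (ns k)).1 (hφ (ns k)).2 2).1.1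
    · exact hae
  have conv : ∀ {a : ℕ → ℝ → ℝ} {b : ℝ → ℝ}, (∀ n, MemLp (a n) 2 volume) → MemLp b 2 volume →
      Tendsto (fun n => eLpNorm (a n - b) 2 volume) atTop (𝓝 0) →
      Tendsto (fun k => (eLpNorm (a (ns k)) 2 volume).toReal) atTop
        (𝓝 (eLpNorm b 2 volume).toReal) := by
    intro a b ha hb hab
    have h3 : Tendsto (fun n => eLpNorm (a n) 2 volume) atTop (𝓝 (eLpNorm b 2 volume)) := by
      rw [ENNReal.tendsto_nhds hb.2.ne]
      intro ε hε
      have hev := (ENNReal.tendsto_nhds_zero.1 hab) ε hε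
      filter_upwards [hev] with n hn
      constructor
      · rw [tsub_le_iff_right]
        calc eLpNorm b 2 volume = eLpNorm (a n - (a n - b)) 2 volume := by
              congr 1; abel
          _ ≤ eLpNorm (a n) 2 volume + eLpNorm (a n - b) 2 volume :=
              eLpNorm_sub_le (ha n).1 ((ha n).1.sub hb.1) (by norm_num)
          _ ≤ _ := by gcongr
      · calc eLpNorm (a n) 2 volume = eLpNorm (b + (a n - b)) 2 volume := by
              congr 1; abel
          _ ≤ eLpNorm b 2 volume + eLpNorm (a n - b) 2 volume :=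
              eLpNorm_add_le hb.1 ((ha n).1.sub hb.1) (by norm_num)
          _ ≤ _ := by gcongr
    exact ((ENNReal.tendsto_toReal hb.2.ne).comp h3).comp hns.tendsto_atTop
  have c1 := conv (fun n => (cc_memLp (hφ n).1 (hφ n).2 2).1) hu h1
  have c2 := conv (fun n => (cc_memLp (hφ n).1 (hφ n).2 2).2) hg h2
  set A := ∫ x, g x ^ 2 with hA
  set B := ∫ x, u x ^ 2 with hB
  rw [int_sq hg] at hA
  rw [int_sq hu] at hB
  have hA0 : 0 ≤ A := by rw [hA]; positivity
  have hB0 : 0 ≤ B := by rw [hB]; positivity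
  let F : ℕ → ℝ := fun k => (3/16 * ((eLpNorm (deriv (φ (ns k))) 2 volume).toReal ^ 2 +
    (eLpNorm (φ (ns k)) 2 volume).toReal ^ 2) ^ 2) ^ ((1:ℝ)/4)
  have hF : Tendsto F atTop (𝓝 ((3/16 * (A + B) ^ 2) ^ ((1:ℝ)/4))) := by
    rw [hA, hB]
    apply Tendsto.rpow_const
    · exact (((c2.pow 2).add (c1.pow 2)).pow 2).const_mul _
    · right; norm_num
  have hle : ∀ k, eLpNorm (φ (ns k)) 4 volume ≤ ENNReal.ofReal (F k) := by
    intro k
    have hm := cc_memLp (hφ (ns k)).1 (hφ (ns k)).2 4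
    have hm2 := cc_memLp (hφ (ns k)).1 (hφ (ns k)).2 2
    have hs := sharp_cc (hφ (ns k)).1 (hφ (ns k)).2
    rw [int_sq hm2.1, int_sq hm2.2, int_four hm.1] at hs
    rw [← ENNReal.ofReal_toReal hm.1.2.ne]
    apply ENNReal.ofReal_le_ofReal
    have h5 : (eLpNorm (φ (ns k)) 4 volume).toReal =
        ((eLpNorm (φ (ns k)) 4 volume).toReal ^ 4) ^ ((1:ℝ)/4) := by
      rw [← Real.rpow_natCast, ← Real.rpow_mul ENNReal.toReal_nonneg]
      norm_num
    rw [h5]
    apply Real.rpow_le_rpow (by positivity) _ (by norm_num)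
    linarith
  have hlim : liminf (fun k => eLpNorm (φ (ns k)) 4 volume) atTop ≤
      ENNReal.ofReal ((3/16 * (A + B) ^ 2) ^ ((1:ℝ)/4)) := by
    have h6 : Tendsto (fun k => ENNReal.ofReal (F k)) atTop
        (𝓝 (ENNReal.ofReal ((3/16 * (A + B) ^ 2) ^ ((1:ℝ)/4)))) :=
      (ENNReal.continuous_ofReal.tendsto _).comp hF
    rw [← h6.liminf_eq]
    exact liminf_le_liminf (Eventually.of_forall hle)
  have h7 := hfat.trans hlim
  have hu4 : MemLp u 4 volume := ⟨hu.1, lt_of_le_of_lt h7 ENNReal.ofReal_lt_top⟩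
  refine ⟨hu4, ?_⟩
  rw [int_four hu4]
  have h8 : (eLpNorm u 4 volume).toReal ≤ (3/16 * (A + B) ^ 2) ^ ((1:ℝ)/4) := by
    have := ENNReal.toReal_mono ENNReal.ofReal_ne_top h7
    rwa [ENNReal.toReal_ofReal (by positivity)] at this
  have h9 : (eLpNorm u 4 volume).toReal ^ 4 ≤ 3/16 * (A + B) ^ 2 := by
    calc _ ≤ ((3/16 * (A + B) ^ 2) ^ ((1:ℝ)/4)) ^ 4 :=
          pow_le_pow_left₀ ENNReal.toReal_nonneg h8 4
      _ = _ := by
        rw [← Real.rpow_natCast, ← Real.rpow_mul (by positivity)]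
        norm_num
  linarith

end Pool.Agent.R217.NS
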