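import Pool.Agent.R217.NS.Sech

set_option autoImplicit false

open MeasureTheory Filter Topology
open scoped ContDiff ENNReal

namespace Pool.Agent.R217.NS

/-- The energy `E_β` of a pair `(u, v)` with derivatives `(g, h)`. -/
noncomputable def En (l1 l2 m1 m2 b : ℝ) (u g v h : ℝ → ℝ) : ℝ :=
  (nrm2 l1 u g + nrm2 l2 v h) / 2 -
    1/4 * ∫ x, (m1 * u x ^ 4 + 2 * b * (u x ^ 2 * v x ^ 2) + m2 * v x ^ 4)

/-- The set `N_β`. -/
def InN (l1 l2 m1 m2 b : ℝ) (u g v h : ℝ → ℝ) : Prop :=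
  IsH1 u g ∧ IsH1 v h ∧ ¬ (u =ᵐ[volume] 0) ∧ ¬ (v =ᵐ[volume] 0) ∧
  nrm2 l1 u g = ∫ x, (m1 * u x ^ 4 + b * (u x ^ 2 * v x ^ 2)) ∧
  nrm2 l2 v h = ∫ x, (m2 * v x ^ 4 + b * (u x ^ 2 * v x ^ 2))

/-- Weak solutions of the system (tested with smooth compactly supported functions). -/
def IsSol (l1 l2 m1 m2 b : ℝ) (u g v h : ℝ → ℝ) : Prop :=
  ∀ φ : ℝ → ℝ, ContDiff ℝ ∞ φ → HasCompactSupport φ →
    (∫ x, (g x * deriv φ x + l1 * u x * φ x) =
      ∫ x, (m1 * u x ^ 3 + b * (u x * v x ^ 2)) * φ x) ∧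
    (∫ x, (h x * deriv φ x + l2 * v x * φ x) =
      ∫ x, (m2 * v x ^ 3 + b * (v x * u x ^ 2)) * φ x)

lemma int_four' {f : ℝ → ℝ} (hf : MemLp f 4 volume) : Integrable fun x => f x ^ 4 := by
  have h := hf.integrable_norm_pow (p := 4) (by norm_num)
  refine h.congr (Eventually.of_forall fun x => ?_)
  simp only
  rw [show (4:ℕ) = 2 * 2 by norm_num, pow_mul, pow_mul, Real.norm_eq_abs, sq_abs]

lemma int_22 {f k : ℝ → ℝ} (hf : MemLp f 4 volume) (hk : MemLp k 4 volume) :
    Integrable fun x => f x ^ 2 * k x ^ 2 := by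
  apply ((int_four' hf).add (int_four' hk)).mono'
  · exact ((hf.1.pow 2).mul (hk.1.pow 2))
  · refine Eventually.of_forall fun x => ?_
    simp only [Pi.add_apply]
    rw [Real.norm_of_nonneg (by positivity)]
    nlinarith [sq_nonneg (f x ^ 2 - k x ^ 2), sq_nonneg (f x ^ 2), sq_nonneg (k x ^ 2)]

lemma nrm2_eq {lam : ℝ} {u g : ℝ → ℝ} (h : IsH1 u g) :
    nrm2 lam u g = (∫ x, g x ^ 2) + lam * ∫ x, u x ^ 2 := by
  rw [nrm2, integral_add h.2.1.integrable_sq (h.1.integrable_sq.const_mul lam),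
    integral_const_mul]

/-- The lower bound for the energy on `N_β`. -/
lemma lower {u g v h : ℝ → ℝ} (hN : InN 1 5 1 16 4 u g v h) :
    4 / 3 ≤ En 1 5 1 16 4 u g v h := by
  obtain ⟨hu, hv, hu0, hv0, e1, e2⟩ := hN
  obtain ⟨hu4, hsh⟩ := sharp_H1 hu
  obtain ⟨hv4, -⟩ := sharp_H1 hv
  have i1 := int_four' hu4
  have i2 := int_four' hv4
  have i3 := int_22 hu4 hv4
  set D := ∫ x, u x ^ 4 with hD
  set W := ∫ x, v x ^ 4 with hW
  set X := ∫ x, u x ^ 2 * v x ^ 2 with hX
  have f1 : ∫ x, (1 * u x ^ 4 + 4 * (u x ^ 2 * v x ^ 2)) = D + 4 * X := by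
    rw [integral_add (i1.const_mul 1) (i3.const_mul 4), integral_const_mul, integral_const_mul,
      one_mul]
  have f2 : ∫ x, (16 * v x ^ 4 + 4 * (u x ^ 2 * v x ^ 2)) = 16 * W + 4 * X := by
    rw [integral_add (i2.const_mul 16) (i3.const_mul 4), integral_const_mul, integral_const_mul]
  have f3 : ∫ x, (1 * u x ^ 4 + 2 * 4 * (u x ^ 2 * v x ^ 2) + 16 * v x ^ 4) =
      D + 8 * X + 16 * W := by
    have j : Integrable fun x => 1 * u x ^ 4 + 2 * 4 * (u x ^ 2 * v x ^ 2) :=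
      (i1.const_mul 1).add (i3.const_mul (2 * 4))
    rw [integral_add j (i2.const_mul 16), integral_add (i1.const_mul 1) (i3.const_mul (2 * 4)),
      integral_const_mul, integral_const_mul, integral_const_mul]
    ring
  have hD0 : 0 < D := by
    rw [hD, integral_pos_iff_support_of_nonneg (fun x => by positivity) i1]
    rw [pos_iff_ne_zero]
    intro hz
    apply hu0
    rw [Filter.EventuallyEq, ae_iff]
    refine measure_mono_null ?_ hz
    intro x hx
    change ¬ (u x = 0) at hx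
    exact pow_ne_zero 4 hx
  have hn : nrm2 1 u g = (∫ x, g x ^ 2) + ∫ x, u x ^ 2 := by rw [nrm2_eq hu, one_mul]
  rw [← hn, e1, f1] at hsh
  have hE : En 1 5 1 16 4 u g v h = 1/4 * (D + 8 * X + 16 * W) := by
    rw [En, e1, e2, f1, f2, f3]; ring
  rw [hE]
  -- Cauchy-Schwarz
  have hcs : 0 ≤ ∫ x, ((D + 4 * X) * u x ^ 2 - D * (u x ^ 2 + 4 * v x ^ 2)) ^ 2 :=
    integral_nonneg fun x => sq_nonneg _
  have e : ∀ x, ((D + 4 * X) * u x ^ 2 - D * (u x ^ 2 + 4 * v x ^ 2)) ^ 2 =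
      (4 * X) ^ 2 * u x ^ 4 + (-(32 * X * D)) * (u x ^ 2 * v x ^ 2) + (16 * D ^ 2) * v x ^ 4 := by
    intro x; ring
  simp_rw [e] at hcs
  have j : Integrable fun x => (4 * X) ^ 2 * u x ^ 4 + (-(32 * X * D)) * (u x ^ 2 * v x ^ 2) :=
    (i1.const_mul _).add (i3.const_mul _)
  rw [integral_add j (i2.const_mul _), integral_add (i1.const_mul _) (i3.const_mul _),
    integral_const_mul, integral_const_mul, integral_const_mul, ← hD, ← hX, ← hW] at hcs
  have h1 : 0 ≤ 16 * D * (D * W - X ^ 2) := by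
    calc (0:ℝ) ≤ _ := hcs
      _ = _ := by ring
  have h2 : X ^ 2 ≤ D * W := by
    by_contra hcon
    push Not at hcon
    nlinarith
  have h3 : (D + 4 * X) ^ 2 ≤ D * (D + 8 * X + 16 * W) := by nlinarith
  have h4 : 16 / 3 * D ≤ D * (D + 8 * X + 16 * W) := hsh.trans h3
  have h5 : 16 / 3 ≤ D + 8 * X + 16 * W := by
    by_contra hcon
    push Not at hcon
    nlinarith
  linarith

lemma IsH1.smul {u g : ℝ → ℝ} (h : IsH1 u g) (c : ℝ) :
    IsH1 (fun x => c * u x) (fun x => c * g x) := by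
  obtain ⟨hu, hg, φ, hφ, h1, h2⟩ := h
  refine ⟨hu.const_mul c, hg.const_mul c, fun n x => c * φ n x, fun n =>
    ⟨contDiff_const.mul (hφ n).1, (hφ n).2.mul_left⟩, ?_, ?_⟩
  · have e : ∀ n, eLpNorm ((fun x => c * φ n x) - fun x => c * u x) 2 volume =
        ENNReal.ofReal |c| * eLpNorm (φ n - u) 2 volume := by
      intro n
      have : ((fun x => c * φ n x) - fun x => c * u x) = c • (φ n - u) := by
        funext x
        simp only [Pi.sub_apply, Pi.smul_apply, smul_eq_mul]; ring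
      rw [this, eLpNorm_const_smul, Real.enorm_eq_ofReal_abs]
    simp_rw [e]
    simpa using ENNReal.Tendsto.const_mul (a := ENNReal.ofReal |c|) h1
      (Or.inr ENNReal.ofReal_ne_top)
  · have e : ∀ n, eLpNorm (deriv (fun x => c * φ n x) - fun x => c * g x) 2 volume =
        ENNReal.ofReal |c| * eLpNorm (deriv (φ n) - g) 2 volume := by
      intro n
      have : (deriv (fun x => c * φ n x) - fun x => c * g x) = c • (deriv (φ n) - g) := by
        funext x
        simp only [Pi.sub_apply, Pi.smul_apply, smul_eq_mul]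
        rw [deriv_const_mul]
        · ring
        · exact ((hφ n).1.differentiable (by simp)) x
      rw [this, eLpNorm_const_smul, Real.enorm_eq_ofReal_abs]
    simp_rw [e]
    simpa using ENNReal.Tendsto.const_mul (a := ENNReal.ofReal |c|) h2
      (Or.inr ENNReal.ofReal_ne_top)

lemma z_ne : ¬ (z =ᵐ[volume] 0) := by
  intro h
  have h1 : ∫ x, z x ^ 2 = 0 := by
    rw [integral_eq_zero_of_ae]
    filter_upwards [h] with x hx
    simp [hx]
  rw [int_z2] at h1
  norm_num at h1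

lemma smul_z_ne {c : ℝ} (hc : c ≠ 0) : ¬ ((fun x => c * z x) =ᵐ[volume] 0) := by
  intro h
  apply z_ne
  filter_upwards [h] with x hx
  simp only [Pi.zero_apply, mul_eq_zero, hc, false_or] at hx
  exact hx

lemma z_H1 : IsH1 z (deriv z) := isH1_of_smooth contDiff_z memLp_z memLp_dz

lemma int_z4' : Integrable fun x => z x ^ 4 := int_four' (sharp_H1 z_H1).1

/-- The pair. -/
lemma pair_mem : InN 1 5 1 16 4 (fun x => 3/5 * z x) (fun x => 3/5 * deriv z x)
    (fun x => 2/5 * z x) (fun x => 2/5 * deriv z x) := by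
  have hu := z_H1.smul (3/5)
  have hv := z_H1.smul (2/5)
  refine ⟨hu, hv, smul_z_ne (by norm_num), smul_z_ne (by norm_num), ?_, ?_⟩
  · rw [nrm2_eq hu]
    have e1 : ∀ x, (3/5 * deriv z x) ^ 2 = 9/25 * deriv z x ^ 2 := fun x => by ring
    have e2 : ∀ x, (3/5 * z x) ^ 2 = 9/25 * z x ^ 2 := fun x => by ring
    have e3 : ∀ x, 1 * (3/5 * z x) ^ 4 + 4 * ((3/5 * z x) ^ 2 * (2/5 * z x) ^ 2) =
      9/25 * z x ^ 4 := fun x => by ring
    simp_rw [e3, e1, e2]
    rw [integral_const_mul, integral_const_mul, integral_const_mul, int_z2, int_dz2, int_z4]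
    norm_num
  · rw [nrm2_eq hv]
    have e1 : ∀ x, (2/5 * deriv z x) ^ 2 = 4/25 * deriv z x ^ 2 := fun x => by ring
    have e2 : ∀ x, (2/5 * z x) ^ 2 = 4/25 * z x ^ 2 := fun x => by ring
    have e3 : ∀ x, 16 * (2/5 * z x) ^ 4 + 4 * ((3/5 * z x) ^ 2 * (2/5 * z x) ^ 2) =
      16/25 * z x ^ 4 := fun x => by ring
    simp_rw [e3, e1, e2]
    rw [integral_const_mul, integral_const_mul, integral_const_mul, int_z2, int_dz2, int_z4]
    norm_num

lemma pair_En : En 1 5 1 16 4 (fun x => 3/5 * z x) (fun x => 3/5 * deriv z x)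
    (fun x => 2/5 * z x) (fun x => 2/5 * deriv z x) = 4 / 3 := by
  obtain ⟨-, -, -, -, h1, h2⟩ := pair_mem
  rw [En, h1, h2]
  have e3 : ∀ x, 1 * (3/5 * z x) ^ 4 + 4 * ((3/5 * z x) ^ 2 * (2/5 * z x) ^ 2) =
      9/25 * z x ^ 4 := fun x => by ring
  have e4 : ∀ x, 16 * (2/5 * z x) ^ 4 + 4 * ((3/5 * z x) ^ 2 * (2/5 * z x) ^ 2) =
      16/25 * z x ^ 4 := fun x => by ring
  have e5 : ∀ x, 1 * (3/5 * z x) ^ 4 + 2 * 4 * ((3/5 * z x) ^ 2 * (2/5 * z x) ^ 2) +
      16 * (2/5 * z x) ^ 4 = z x ^ 4 := fun x => by ring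
  simp_rw [e3, e4, e5]
  rw [integral_const_mul, integral_const_mul, int_z4]
  norm_num

lemma not_sol : ¬ IsSol 1 5 1 16 4 (fun x => 3/5 * z x) (fun x => 3/5 * deriv z x)
    (fun x => 2/5 * z x) (fun x => 2/5 * deriv z x) := by
  intro h
  have hzc : Continuous z := contDiff_z.continuous
  have hF : Continuous fun x => 4 * z x - 3 * z x ^ 3 := by fun_prop
  have key : ∀ φ : ℝ → ℝ, ContDiff ℝ ∞ φ → HasCompactSupport φ →
      ∫ x, φ x • (4 * z x - 3 * z x ^ 3) = 0 := by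
    intro φ hφ hc
    have h2 := (h φ hφ hc).2
    have hφd : Continuous (deriv φ) := hφ.continuous_deriv (by simp)
    have hdz : Continuous (deriv z) := contDiff_z.continuous_deriv (by simp)
    have j1 : Integrable fun x => deriv z x * deriv φ x :=
      (hdz.mul hφd).integrable_of_hasCompactSupport hc.deriv.mul_left
    have j2 : Integrable fun x => (z x - z x ^ 3) * φ x :=
      ((hzc.sub (hzc.pow 3)).mul hφ.continuous).integrable_of_hasCompactSupport hc.mul_left
    have j3 : Integrable fun x => z x * φ x :=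
      (hzc.mul hφ.continuous).integrable_of_hasCompactSupport hc.mul_left
    have j4 : Integrable fun x => z x ^ 3 * φ x :=
      ((hzc.pow 3).mul hφ.continuous).integrable_of_hasCompactSupport hc.mul_left
    have j5 : Integrable fun x => deriv z x * φ x :=
      (hdz.mul hφ.continuous).integrable_of_hasCompactSupport hc.mul_left
    have hibp : ∫ x, deriv z x * deriv φ x = - ∫ x, (z x - z x ^ 3) * φ x :=
      integral_mul_deriv_eq_deriv_mul_of_integrable (fun x _ => hasDerivAt_dz x)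
        (fun x _ => ((hφ.differentiable (by simp)) x).hasDerivAt) j1 j2 j5
    have hibp2 : ∫ x, (z x - z x ^ 3) * φ x = (∫ x, z x * φ x) - ∫ x, z x ^ 3 * φ x := by
      rw [← integral_sub j3 j4]
      congr 1; funext x; ring
    have e1 : ∫ x, (2/5 * deriv z x * deriv φ x + 5 * (2/5 * z x) * φ x) =
        2/5 * (∫ x, deriv z x * deriv φ x) + 2 * ∫ x, z x * φ x := by
      rw [← integral_const_mul, ← integral_const_mul, ← integral_add (j1.const_mul _)
        (j3.const_mul _)]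
      congr 1; funext x; ring
    have e2 : ∫ x, (16 * (2/5 * z x) ^ 3 + 4 * ((2/5 * z x) * (3/5 * z x) ^ 2)) * φ x =
        8/5 * ∫ x, z x ^ 3 * φ x := by
      rw [← integral_const_mul]
      congr 1; funext x; ring
    rw [e1, e2, hibp, hibp2] at h2
    have e3 : ∫ x, φ x • (4 * z x - 3 * z x ^ 3) =
        4 * (∫ x, z x * φ x) - 3 * ∫ x, z x ^ 3 * φ x := by
      rw [← integral_const_mul, ← integral_const_mul, ← integral_sub (j3.const_mul _)
        (j4.const_mul _)]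
      congr 1; funext x
      simp only [smul_eq_mul]; ring
    rw [e3]
    linarith
  have hae := ae_eq_zero_of_integral_contDiff_smul_eq_zero (hF.locallyIntegrable) key
  have heq : (fun x => 4 * z x - 3 * z x ^ 3) = fun _ => 0 :=
    (hF.ae_eq_iff_eq volume continuous_const).1 hae
  have h0 := congrFun heq 0
  have hz0 : z 0 = Real.sqrt 2 := by simp [z, S]
  simp only [hz0] at h0
  have h2 : Real.sqrt 2 ^ 2 = 2 := Real.sq_sqrt (by norm_num)
  have h3 : 0 < Real.sqrt 2 := by positivity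
  have h4 : 4 * Real.sqrt 2 - 3 * Real.sqrt 2 ^ 3 = -(2 * Real.sqrt 2) := by
    have : Real.sqrt 2 ^ 3 = 2 * Real.sqrt 2 := by
      calc Real.sqrt 2 ^ 3 = Real.sqrt 2 ^ 2 * Real.sqrt 2 := by ring
        _ = _ := by rw [h2]
    rw [this]; ring
  rw [h4] at h0
  linarith

end Pool.Agent.R217.NS
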