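import Pool.Agent.R217.NS.Ineq

set_option autoImplicit false

open MeasureTheory Filter Topology
open scoped ContDiff ENNReal

namespace Pool.Agent.R217.NS

lemma tendsto_of_int_sq {a : ℕ → ℝ → ℝ} (ha : ∀ n, MemLp (a n) 2 volume)
    (h : Tendsto (fun n => ∫ x, a n x ^ 2) atTop (𝓝 0)) :
    Tendsto (fun n => eLpNorm (a n) 2 volume) atTop (𝓝 0) := by
  have h1 : Tendsto (fun n => Real.sqrt (∫ x, a n x ^ 2)) atTop (𝓝 0) := by
    have := (Real.continuous_sqrt.tendsto 0).comp h
    simpa [Function.comp_def] using this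
  have h2 : ∀ n, eLpNorm (a n) 2 volume = ENNReal.ofReal (Real.sqrt (∫ x, a n x ^ 2)) := by
    intro n
    rw [int_sq (ha n), Real.sqrt_sq ENNReal.toReal_nonneg, ENNReal.ofReal_toReal (ha n).2.ne]
  simp_rw [h2]
  have := (ENNReal.continuous_ofReal.tendsto 0).comp h1
  simpa [Function.comp_def] using this

/-- Smooth functions which are square integrable together with their derivative. -/
lemma isH1_of_smooth {f : ℝ → ℝ} (hf : ContDiff ℝ ∞ f) (h2 : MemLp f 2 volume)
    (h2' : MemLp (deriv f) 2 volume) : IsH1 f (deriv f) := by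
  refine ⟨h2, h2', ?_⟩
  let η : ContDiffBump (0:ℝ) := ⟨1, 2, one_pos, one_lt_two⟩
  have hη : ContDiff ℝ ∞ η := η.contDiff
  have hηc : HasCompactSupport η := η.hasCompactSupport
  have hη0 : η 0 = 1 := η.one_of_mem_closedBall (by simp [η])
  have hη1 : ∀ x, |η x| ≤ 1 := fun x => by
    rw [abs_of_nonneg η.nonneg]; exact η.le_one
  obtain ⟨C, hC⟩ := hηc.deriv.exists_bound_of_continuous (hη.continuous_deriv (by simp))
  have hC0 : 0 ≤ C := (norm_nonneg _).trans (hC 0)
  let χ : ℕ → ℝ → ℝ := fun n x => η (((n:ℝ) + 1)⁻¹ * x)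
  have hχ : ∀ n, ContDiff ℝ ∞ (χ n) := fun n => hη.comp (contDiff_const.mul contDiff_id)
  have hχc : ∀ n, HasCompactSupport (χ n) := by
    intro n
    have hn : ((n:ℝ) + 1)⁻¹ ≠ 0 := by positivity
    exact hηc.comp_homeomorph (Homeomorph.mulLeft₀ _ hn)
  have hχd : ∀ n x, HasDerivAt (χ n) (((n:ℝ) + 1)⁻¹ * deriv η (((n:ℝ) + 1)⁻¹ * x)) x := by
    intro n x
    have e1 : HasDerivAt (fun x : ℝ => ((n:ℝ) + 1)⁻¹ * x) (((n:ℝ) + 1)⁻¹) x := by
      simpa using (hasDerivAt_id x).const_mul (((n:ℝ) + 1)⁻¹)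
    have e2 := ((hη.differentiable (by simp)) (((n:ℝ) + 1)⁻¹ * x)).hasDerivAt
    have := HasDerivAt.comp x e2 e1
    refine this.congr_deriv ?_
    ring
  have hfd : ∀ x, HasDerivAt f (deriv f x) x := fun x =>
    ((hf.differentiable (by simp)) x).hasDerivAt
  have hprod : ∀ n x, deriv (fun x => χ n x * f x) x =
      ((n:ℝ) + 1)⁻¹ * deriv η (((n:ℝ) + 1)⁻¹ * x) * f x + χ n x * deriv f x := fun n x =>
    ((hχd n x).mul (hfd x)).deriv
  have hlim0 : Tendsto (fun n : ℕ => ((n:ℝ) + 1)⁻¹) atTop (𝓝 0) := by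
    have := tendsto_one_div_add_atTop_nhds_zero_nat (𝕜 := ℝ)
    simpa [one_div] using this
  have hχlim : ∀ x, Tendsto (fun n => χ n x) atTop (𝓝 1) := by
    intro x
    have e1 : Tendsto (fun n : ℕ => ((n:ℝ) + 1)⁻¹ * x) atTop (𝓝 0) := by
      simpa using hlim0.mul_const x
    have := (hη.continuous.tendsto 0).comp e1
    rw [hη0] at this
    exact this
  have i1 : Integrable fun x => f x ^ 2 := h2.integrable_sq
  have i2 : Integrable fun x => deriv f x ^ 2 := h2'.integrable_sq
  have hcc : ∀ n, ContDiff ℝ ∞ (fun x => χ n x * f x) ∧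
      HasCompactSupport (fun x => χ n x * f x) := fun n => ⟨(hχ n).mul hf, (hχc n).mul_right⟩
  refine ⟨fun n x => χ n x * f x, hcc, ?_, ?_⟩
  · apply tendsto_of_int_sq
    · intro n
      exact (cc_memLp (hcc n).1 (hcc n).2 2).1.sub h2
    · have : (0:ℝ) = ∫ x : ℝ, (0:ℝ) := by simp
      rw [this]
      apply tendsto_integral_of_dominated_convergence (fun x => 4 * f x ^ 2)
      · intro n
        exact (((cc_memLp (hcc n).1 (hcc n).2 2).1.sub h2).integrable_sq).1
      · exact i1.const_mul 4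
      · intro n
        refine Eventually.of_forall fun x => ?_
        simp only [Pi.sub_apply]
        have e : χ n x * f x - f x = (χ n x - 1) * f x := by ring
        rw [e, mul_pow, Real.norm_of_nonneg (by positivity)]
        have h3 := abs_le.1 (hη1 (((n:ℝ) + 1)⁻¹ * x))
        have h4 : (χ n x - 1) ^ 2 ≤ 4 := by
          change (η (((n:ℝ) + 1)⁻¹ * x) - 1) ^ 2 ≤ 4
          nlinarith [h3.1, h3.2]
        exact mul_le_mul_of_nonneg_right h4 (sq_nonneg _)
      · refine Eventually.of_forall fun x => ?_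
        have e := (((hχlim x).mul_const (f x)).sub_const (f x)).pow 2
        simp only [Pi.sub_apply]
        simpa using e
  · apply tendsto_of_int_sq
    · intro n
      exact (cc_memLp (hcc n).1 (hcc n).2 2).2.sub h2'
    · have : (0:ℝ) = ∫ x : ℝ, (0:ℝ) := by simp
      rw [this]
      apply tendsto_integral_of_dominated_convergence
        (fun x => 2 * C ^ 2 * f x ^ 2 + 8 * deriv f x ^ 2)
      · intro n
        exact (((cc_memLp (hcc n).1 (hcc n).2 2).2.sub h2').integrable_sq).1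
      · exact (i1.const_mul (2 * C ^ 2)).add (i2.const_mul 8)
      · intro n
        refine Eventually.of_forall fun x => ?_
        simp only [Pi.sub_apply, hprod]
        have e : ((n:ℝ) + 1)⁻¹ * deriv η (((n:ℝ) + 1)⁻¹ * x) * f x + χ n x * deriv f x -
            deriv f x = ((n:ℝ) + 1)⁻¹ * deriv η (((n:ℝ) + 1)⁻¹ * x) * f x +
            (χ n x - 1) * deriv f x := by ring
        rw [e, Real.norm_of_nonneg (by positivity)]
        have h3 := abs_le.1 (hη1 (((n:ℝ) + 1)⁻¹ * x))
        have h4 : (χ n x - 1) ^ 2 ≤ 4 := by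
          change (η (((n:ℝ) + 1)⁻¹ * x) - 1) ^ 2 ≤ 4
          nlinarith [h3.1, h3.2]
        have h5 : (((n:ℝ) + 1)⁻¹ * deriv η (((n:ℝ) + 1)⁻¹ * x)) ^ 2 ≤ C ^ 2 := by
          rw [sq_le_sq, abs_of_nonneg hC0, abs_mul]
          have h6 := hC (((n:ℝ) + 1)⁻¹ * x)
          rw [Real.norm_eq_abs] at h6
          have h7 : |((n:ℝ) + 1)⁻¹| ≤ 1 := by
            rw [abs_of_pos (by positivity)]
            apply inv_le_one_of_one_le₀
            have : (0:ℝ) ≤ n := Nat.cast_nonneg n
            linarith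
          calc _ ≤ 1 * C := mul_le_mul h7 h6 (abs_nonneg _) (by norm_num)
            _ = C := one_mul C
        set p := ((n:ℝ) + 1)⁻¹ * deriv η (((n:ℝ) + 1)⁻¹ * x)
        set q := χ n x - 1
        have h8 : (p * f x + q * deriv f x) ^ 2 ≤ 2 * (p * f x) ^ 2 + 2 * (q * deriv f x) ^ 2 := by
          nlinarith [sq_nonneg (p * f x - q * deriv f x)]
        have h9 : (p * f x) ^ 2 ≤ C ^ 2 * f x ^ 2 := by
          rw [mul_pow]; exact mul_le_mul_of_nonneg_right h5 (sq_nonneg _)
        have h10 : (q * deriv f x) ^ 2 ≤ 4 * deriv f x ^ 2 := by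
          rw [mul_pow]; exact mul_le_mul_of_nonneg_right h4 (sq_nonneg _)
        linarith
      · refine Eventually.of_forall fun x => ?_
        simp only [Pi.sub_apply, hprod]
        have hηd : Continuous (deriv η) := hη.continuous_deriv (by simp)
        have e1 : Tendsto (fun n : ℕ => ((n:ℝ) + 1)⁻¹ * x) atTop (𝓝 0) := by
          simpa using hlim0.mul_const x
        have e2 := ((hlim0.mul ((hηd.tendsto 0).comp e1)).mul_const (f x)).add
          (((hχlim x).mul_const (deriv f x)))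
        have e3 := (e2.sub_const (deriv f x)).pow 2
        simpa using e3

end Pool.Agent.R217.NS
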