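import Pool.Agent.R217.NS.Member

set_option autoImplicit false

open MeasureTheory Filter Topology
open scoped ContDiff ENNReal

namespace Pool.Agent.R217.NS

/-- `sech`. -/
noncomputable def S (x : ℝ) : ℝ := (Real.cosh x)⁻¹

lemma contDiff_S : ContDiff ℝ ∞ S := Real.contDiff_cosh.inv fun x => (Real.cosh_pos x).ne'

lemma S_pos (x : ℝ) : 0 < S x := inv_pos.2 (Real.cosh_pos x)

lemma hasDerivAt_S (x : ℝ) : HasDerivAt S (-(S x * Real.tanh x)) x := by
  have h := (Real.hasDerivAt_cosh x).inv (Real.cosh_pos x).ne'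
  refine h.congr_deriv ?_
  rw [Real.tanh_eq_sinh_div_cosh, S]
  have := (Real.cosh_pos x).ne'
  field_simp

lemma S_sq (x : ℝ) : S x ^ 2 = 1 - Real.tanh x ^ 2 := by
  rw [Real.tanh_eq_sinh_div_cosh, S]
  have h := (Real.cosh_pos x).ne'
  have h2 := Real.cosh_sq x
  field_simp
  linarith

lemma hasDerivAt_T (x : ℝ) : HasDerivAt Real.tanh (S x ^ 2) x := by
  have h : HasDerivAt (fun x => Real.sinh x / Real.cosh x) (S x ^ 2) x := by
    refine ((Real.hasDerivAt_sinh x).div (Real.hasDerivAt_cosh x)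
      (Real.cosh_pos x).ne').congr_deriv ?_
    rw [S]
    have h := (Real.cosh_pos x).ne'
    have h2 := Real.cosh_sq x
    field_simp
    linarith
  have e : Real.tanh = fun x => Real.sinh x / Real.cosh x := by
    funext x; exact Real.tanh_eq_sinh_div_cosh x
  rw [e]; exact h

lemma tanh_eq' (x : ℝ) : Real.tanh x = 1 - 2 / (Real.exp (2 * x) + 1) := by
  rw [Real.tanh_eq]
  have h1 := Real.exp_pos x
  have h2 : Real.exp (-x) = (Real.exp x)⁻¹ := Real.exp_neg x
  have h3 : Real.exp (2 * x) = Real.exp x ^ 2 := by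
    rw [← Real.exp_nat_mul]; norm_num
  rw [h2, h3]
  field_simp
  ring

lemma tanh_top : Tendsto Real.tanh atTop (𝓝 1) := by
  have h1 : Tendsto (fun x : ℝ => Real.exp (2 * x) + 1) atTop atTop := by
    apply tendsto_atTop_add_const_right
    exact Real.tendsto_exp_atTop.comp (tendsto_id.const_mul_atTop (by norm_num))
  have h2 := (h1.const_div_atTop 2).const_sub 1
  rw [sub_zero] at h2
  refine h2.congr fun x => (tanh_eq' x).symm

lemma tanh_bot : Tendsto Real.tanh atBot (𝓝 (-1)) := by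
  have h := (tanh_top.comp tendsto_neg_atBot_atTop).neg
  refine h.congr fun x => ?_
  simp [Real.tanh_neg]

lemma S_sq_le (x : ℝ) : S x ^ 2 ≤ (1 + x ^ 2)⁻¹ := by
  rw [S, inv_pow]
  apply inv_anti₀ (by positivity)
  rw [Real.cosh_sq]
  have h : |x| ≤ |Real.sinh x| := by
    rcases le_total 0 x with hx | hx
    · rw [abs_of_nonneg hx, abs_of_nonneg (Real.sinh_nonneg_iff.2 hx)]
      exact Real.self_le_sinh_iff.2 hx
    · rw [abs_of_nonpos hx, abs_of_nonpos (Real.sinh_nonpos_iff.2 hx)]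
      have := Real.sinh_le_self_iff.2 hx
      linarith
  have := sq_le_sq.2 h
  linarith

lemma S_le_one (x : ℝ) : S x ≤ 1 := inv_le_one_of_one_le₀ (Real.one_le_cosh x)

lemma int_S2 : Integrable fun x => S x ^ 2 := by
  apply integrable_inv_one_add_sq.mono' (contDiff_S.continuous.pow 2).aestronglyMeasurable
  refine Eventually.of_forall fun x => ?_
  change ‖S x ^ 2‖ ≤ _
  rw [Real.norm_of_nonneg (sq_nonneg _)]
  exact S_sq_le x

lemma cont_T : Continuous Real.tanh :=
  continuous_iff_continuousAt.2 fun x => (hasDerivAt_T x).continuousAt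

lemma int_mul_S2 {f : ℝ → ℝ} (hf : Continuous f) (hb : ∀ x, |f x| ≤ 1) :
    Integrable fun x => f x * S x ^ 2 := by
  apply int_S2.mono (hf.mul (contDiff_S.continuous.pow 2)).aestronglyMeasurable
  refine Eventually.of_forall fun x => ?_
  change ‖f x * S x ^ 2‖ ≤ _
  rw [norm_mul]
  have := hb x
  rw [Real.norm_eq_abs (f x)]
  exact mul_le_of_le_one_left (norm_nonneg _) this

lemma val_S2 : ∫ x, S x ^ 2 = 2 := by
  rw [integral_of_hasDerivAt_of_tendsto hasDerivAt_T int_S2 tanh_bot tanh_top]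
  norm_num

lemma int_S4 : Integrable fun x => S x ^ 4 := by
  have := int_mul_S2 (f := fun x => S x ^ 2) (contDiff_S.continuous.pow 2) (fun x => by
    rw [abs_of_nonneg (by positivity)]
    exact pow_le_one₀ (S_pos x).le (S_le_one x))
  refine this.congr (Eventually.of_forall fun x => ?_)
  simp only; ring

lemma int_T2S2 : Integrable fun x => Real.tanh x ^ 2 * S x ^ 2 :=
  int_mul_S2 (cont_T.pow 2) (fun x => by
    rw [abs_of_nonneg (by positivity)]
    exact (Real.tanh_sq_lt_one x).le)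

lemma val_T2S2 : ∫ x, Real.tanh x ^ 2 * S x ^ 2 = 2 / 3 := by
  have hd : ∀ x, HasDerivAt (fun x => Real.tanh x ^ 3 / 3) (Real.tanh x ^ 2 * S x ^ 2) x := by
    intro x
    refine (((hasDerivAt_T x).fun_pow 3).div_const 3).congr_deriv ?_
    norm_num
    ring
  rw [integral_of_hasDerivAt_of_tendsto hd int_T2S2 ((tanh_bot.pow 3).div_const 3)
    ((tanh_top.pow 3).div_const 3)]
  norm_num

lemma val_S4 : ∫ x, S x ^ 4 = 4 / 3 := by
  have e : ∀ x, S x ^ 4 = S x ^ 2 - Real.tanh x ^ 2 * S x ^ 2 := by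
    intro x
    have := S_sq x
    have h4 : S x ^ 4 = S x ^ 2 * S x ^ 2 := by ring
    rw [h4]
    nth_rewrite 1 [this]
    ring
  simp_rw [e]
  rw [integral_sub int_S2 int_T2S2, val_S2, val_T2S2]
  norm_num

/-- `z = √2 sech`. -/
noncomputable def z (x : ℝ) : ℝ := Real.sqrt 2 * S x

lemma contDiff_z : ContDiff ℝ ∞ z := contDiff_const.mul contDiff_S

lemma hasDerivAt_z (x : ℝ) : HasDerivAt z (-(z x * Real.tanh x)) x := by
  refine ((hasDerivAt_S x).const_mul (Real.sqrt 2)).congr_deriv ?_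
  rw [z]; ring

lemma deriv_z : deriv z = fun x => -(z x * Real.tanh x) := by
  funext x; exact (hasDerivAt_z x).deriv

lemma z_sq (x : ℝ) : z x ^ 2 = 2 * S x ^ 2 := by
  rw [z, mul_pow, Real.sq_sqrt (by norm_num)]

lemma z_four (x : ℝ) : z x ^ 4 = 4 * S x ^ 4 := by
  have : z x ^ 4 = (z x ^ 2) ^ 2 := by ring
  rw [this, z_sq]; ring

lemma dz_sq (x : ℝ) : deriv z x ^ 2 = 2 * (Real.tanh x ^ 2 * S x ^ 2) := by
  rw [deriv_z]
  simp only [neg_sq, mul_pow, z_sq]
  ring

lemma memLp_z : MemLp z 2 volume := by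
  rw [memLp_two_iff_integrable_sq contDiff_z.continuous.aestronglyMeasurable]
  simp_rw [z_sq]
  exact int_S2.const_mul 2

lemma memLp_dz : MemLp (deriv z) 2 volume := by
  rw [memLp_two_iff_integrable_sq (contDiff_z.continuous_deriv (by simp)).aestronglyMeasurable]
  simp_rw [dz_sq]
  exact int_T2S2.const_mul 2

lemma int_z2 : ∫ x, z x ^ 2 = 4 := by
  simp_rw [z_sq]; rw [integral_const_mul, val_S2]; norm_num

lemma int_dz2 : ∫ x, deriv z x ^ 2 = 4 / 3 := by
  simp_rw [dz_sq]; rw [integral_const_mul, val_T2S2]; norm_num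

lemma int_z4 : ∫ x, z x ^ 4 = 16 / 3 := by
  simp_rw [z_four]; rw [integral_const_mul, val_S4]; norm_num

/-- `z'' = z - z^3`. -/
lemma hasDerivAt_dz (x : ℝ) : HasDerivAt (deriv z) (z x - z x ^ 3) x := by
  rw [deriv_z]
  refine (((hasDerivAt_z x).mul (hasDerivAt_T x)).neg).congr_deriv ?_
  have h1 : Real.tanh x ^ 2 = 1 - S x ^ 2 := by rw [S_sq]; ring
  have h2 : z x ^ 3 = z x * z x ^ 2 := by ring
  rw [h2, z_sq]
  linear_combination (z x) * h1

end Pool.Agent.R217.NS
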